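import Pool.Agent.CRt.Member
import Pool.Agent.CRt.Hard

/-!
The decision problem of the `2`-polygonal crossing number (each edge is drawn with two straight
segments) is complete for the class `∃ℝ` (the existential theory of the reals), with respect to
polynomial-time many-one reductions.
-/

namespace Pool.Agent.Results.MP_3afca2_lc.CRTwoComplete

open Pool.Agent.CRt

theorem result : ExistsRComplete (CR 2) := ⟨cr_le_etr, fun _ hL => cr_hard hL⟩

end Pool.Agent.Results.MP_3afca2_lc.CRTwoComplete
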